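import Pool.Agent.Helper18.NF.StC
import Pool.Agent.Helper18.NF.Basic
import Pool.Agent.Helper18.BV.SpecialPrimes

/-! # Project NF, module NF-26: special primes with a prescribed Kummer pattern -/

set_option autoImplicit false

open Finset Filter Topology
open Pool.Agent.Helper18.NF Pool.Agent.Helper18.BV
open scoped ArithmeticFunction.vonMangoldt Classical

namespace Pool.Agent.Helper54.NF

/-! ### the proper prime powers contribute little -/

/-- the summand over the non-primes -/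
noncomputable def F0 (n : ℕ) : ℝ := (if n.Prime then 0 else Λ n) * (n : ℝ)⁻¹ ^ (3 / 4 : ℝ)

noncomputable def F1 (pk : Nat.Primes × ℕ) : ℝ := F0 (pk.1 ^ (pk.2 + 1))

noncomputable def F2 : Nat.Primes × ℕ → ℝ := F1 ∘ (Prod.map _root_.id (· + 1))

theorem F0_nonneg (n : ℕ) : 0 ≤ F0 n := by
  unfold F0
  apply mul_nonneg
  · split_ifs
    · exact le_rfl
    · exact ArithmeticFunction.vonMangoldt_nonneg
  · positivity

theorem F2_le (p : Nat.Primes) (k : ℕ) :
    F2 (p, k) ≤ 8 * (((p : ℝ)⁻¹ ^ (3 / 4 : ℝ)) ^ k * (p : ℝ)⁻¹ ^ (11 / 8 : ℝ)) := by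
  have hp : (0:ℝ) < p := by exact_mod_cast p.prop.pos
  have hpi : (0:ℝ) < (p : ℝ)⁻¹ := inv_pos.2 hp
  have h1 : F2 (p, k) = Real.log p * ((p : ℝ)⁻¹ ^ (3 / 4 : ℝ)) ^ (k + 2) := by
    simp only [F2, Function.comp_apply, F1, F0, Prod.map_apply, id_eq]
    rw [if_neg (Nat.Prime.not_prime_pow (by omega)),
      ArithmeticFunction.vonMangoldt_apply_pow (by omega),
      ArithmeticFunction.vonMangoldt_apply_prime p.prop]
    congr 1
    push_cast
    rw [← inv_pow, ← Real.rpow_natCast, ← Real.rpow_natCast, ← Real.rpow_mul hpi.le,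
      ← Real.rpow_mul hpi.le, mul_comm]
  rw [h1]
  have h2 : Real.log p ≤ 8 * (p : ℝ)⁻¹ ^ (-(1 / 8) : ℝ) := by
    have := Real.log_le_rpow_div (x := (p : ℝ)) hp.le (ε := 1 / 8) (by norm_num)
    rw [Real.inv_rpow hp.le, Real.rpow_neg hp.le, inv_inv]
    linarith
  have h3 : ((p : ℝ)⁻¹ ^ (3 / 4 : ℝ)) ^ (k + 2) =
      ((p : ℝ)⁻¹ ^ (3 / 4 : ℝ)) ^ k * (p : ℝ)⁻¹ ^ (3 / 2 : ℝ) := by
    rw [pow_add]
    congr 1
    rw [← Real.rpow_natCast, ← Real.rpow_mul hpi.le]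
    norm_num
  rw [h3]
  calc Real.log p * (((p : ℝ)⁻¹ ^ (3 / 4 : ℝ)) ^ k * (p : ℝ)⁻¹ ^ (3 / 2 : ℝ))
      ≤ (8 * (p : ℝ)⁻¹ ^ (-(1 / 8) : ℝ)) *
          (((p : ℝ)⁻¹ ^ (3 / 4 : ℝ)) ^ k * (p : ℝ)⁻¹ ^ (3 / 2 : ℝ)) :=
        mul_le_mul_of_nonneg_right h2 (by positivity)
    _ = 8 * (((p : ℝ)⁻¹ ^ (3 / 4 : ℝ)) ^ k *
          ((p : ℝ)⁻¹ ^ (-(1 / 8) : ℝ) * (p : ℝ)⁻¹ ^ (3 / 2 : ℝ))) := by ring
    _ = _ := by
        rw [← Real.rpow_add hpi]
        norm_num

theorem half_rpow_lt : ((2:ℝ)⁻¹) ^ (3 / 4 : ℝ) < 1 :=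
  Real.rpow_lt_one (by norm_num) (by norm_num) (by norm_num)

theorem summable_F2 : Summable F2 := by
  have hp₀ (p : Nat.Primes) : 0 < (p : ℝ)⁻¹ := inv_pos_of_pos (Nat.cast_pos.mpr p.prop.pos)
  have hp₁ (p : Nat.Primes) : (p : ℝ)⁻¹ ≤ 2⁻¹ := by
    apply inv_anti₀ (by norm_num)
    exact_mod_cast p.prop.two_le
  have hp₂ (p : Nat.Primes) : (p : ℝ)⁻¹ ^ (3 / 4 : ℝ) ≤ 2⁻¹ ^ (3 / 4 : ℝ) :=
    Real.rpow_le_rpow (hp₀ p).le (hp₁ p) (by norm_num)
  have hp₃ (p : Nat.Primes) : (p : ℝ)⁻¹ ^ (3 / 4 : ℝ) < 1 := (hp₂ p).trans_lt half_rpow_lt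
  have hnn (p : Nat.Primes) : 0 ≤ (p : ℝ)⁻¹ ^ (3 / 4 : ℝ) := Real.rpow_nonneg (hp₀ p).le _
  suffices Summable fun (pk : Nat.Primes × ℕ) =>
      (((pk.1 : ℝ)⁻¹ ^ (3 / 4 : ℝ)) ^ pk.2 * (pk.1 : ℝ)⁻¹ ^ (11 / 8 : ℝ)) by
    refine (Summable.mul_left 8 this).of_nonneg_of_le (fun pk => ?_) (fun pk => F2_le pk.1 pk.2)
    simp only [F2, Function.comp_apply, F1]
    exact F0_nonneg _
  refine (summable_prod_of_nonneg (fun pk => by
    have := hp₀ pk.1
    positivity)).mpr ⟨(fun p => ?_), ?_⟩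
  · dsimp only
    exact Summable.mul_right _ (summable_geometric_of_lt_one (hnn p) (hp₃ p))
  · dsimp only
    conv => enter [1, p]; rw [tsum_mul_right, tsum_geometric_of_lt_one (hnn p) (hp₃ p)]
    have h1 : Summable (fun p : Nat.Primes => ((p : ℝ)) ^ (-(11 / 8) : ℝ)) :=
      Nat.Primes.summable_rpow.mpr (by norm_num)
    refine (h1.mul_left ((1 - 2⁻¹ ^ (3 / 4 : ℝ))⁻¹)).of_nonneg_of_le (fun p => ?_) (fun p => ?_)
    · have := sub_pos.mpr (hp₃ p)
      have := hp₀ p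
      positivity
    · rw [Real.inv_rpow (Nat.cast_nonneg _) (11 / 8 : ℝ), Real.rpow_neg (Nat.cast_nonneg _)]
      apply mul_le_mul_of_nonneg_right _ (by positivity)
      apply inv_anti₀ (sub_pos.2 half_rpow_lt)
      linarith [hp₂ p]

theorem summable_F0 : Summable F0 := by
  have hF₀ (p : Nat.Primes) : F0 p.val = 0 := by
    simp only [p.prop, ↓reduceIte, zero_mul, F0]
  refine (summable_subtype_iff_indicator (s := {n | IsPrimePow n}).mp ?_).congr
      fun n => Set.indicator_apply_eq_self.mpr fun (hn : ¬ IsPrimePow n) => ?_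
  swap
  · unfold F0
    have : Λ n = 0 := by
      rw [ArithmeticFunction.vonMangoldt_eq_zero_iff]; exact hn
    rw [this, ite_self, zero_mul]
  have hFF' :
      F0 ∘ Subtype.val (p := fun n => n ∈ {n | IsPrimePow n}) =
        F1 ∘ ⇑Nat.Primes.prodNatEquiv.symm := by
    refine (Equiv.eq_comp_symm Nat.Primes.prodNatEquiv (F0 ∘ Subtype.val) F1).mpr ?_
    ext1 n
    simp only [Function.comp_apply, F1]
    congr
  rw [hFF']
  refine (Nat.Primes.prodNatEquiv.symm.summable_iff (f := F1)).mpr ?_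
  have hF'₀ (p : Nat.Primes) : F1 (p, 0) = 0 := by simp only [zero_add, pow_one, hF₀, F1]
  refine (Function.Injective.summable_iff (g := Prod.map _root_.id (· + 1)) ?_
    fun u hu => ?_).mp summable_F2
  · exact Function.Injective.prodMap (fun ⦃a₁ a₂⦄ a => a) <| add_left_injective 1
  · simp only [Set.range_prodMap, Set.range_id, Set.mem_prod, Set.mem_univ, Set.mem_range,
      Nat.exists_add_one_eq, true_and, not_lt, nonpos_iff_eq_zero] at hu
    rw [← hF'₀ u.1, ← hu]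

/-- the non-primes contribute at most `C x^(-1/8)` -/
theorem nonprime_pow {g : ℝ → ℝ} (hg : IsWt g) :
    ∃ C : ℝ, 0 < C ∧ ∀ x : ℝ, 1 < x → ∀ T : Finset ℕ, (∀ n ∈ T, ¬ n.Prime) →
      ∑ n ∈ T, Λ n * wt g x n ≤ C * x ^ (-(1 / 8) : ℝ) := by
  obtain ⟨M, hM, hgM⟩ := hg.exists_bound
  refine ⟨M * (∑' n, F0 n + 1), ?_, ?_⟩
  · have : 0 ≤ ∑' n, F0 n := tsum_nonneg F0_nonneg
    positivity
  intro x hx T hT
  have hx0 : 0 < x := by linarith
  have h1 : ∑ n ∈ T, Λ n * wt g x n ≤ ∑ n ∈ T, (M * x ^ (-(1 / 8) : ℝ)) * F0 n := by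
    apply Finset.sum_le_sum
    intro n hn
    have hL : 0 ≤ Λ n := ArithmeticFunction.vonMangoldt_nonneg
    by_cases hnx : (n : ℝ) ≤ x ^ (1 / 2 : ℝ)
    · rw [wt_zero hg hx hnx, mul_zero]
      exact mul_nonneg (by positivity) (F0_nonneg n)
    · push Not at hnx
      have hn0 : (0:ℝ) < n := (Real.rpow_pos_of_pos hx0 _).trans hnx
      rw [F0, if_neg (hT n hn), wt]
      have h2 : g (Real.log n / Real.log x) / n ≤ M * ((n:ℝ)⁻¹ ^ (3 / 4 : ℝ) *
          (n:ℝ)⁻¹ ^ (1 / 4 : ℝ)) := by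
        rw [← Real.rpow_add (inv_pos.2 hn0)]
        norm_num
        rw [div_eq_mul_inv]
        exact mul_le_mul_of_nonneg_right (hgM _) (by positivity)
      have h3 : (n:ℝ)⁻¹ ^ (1 / 4 : ℝ) ≤ x ^ (-(1 / 8) : ℝ) := by
        rw [Real.inv_rpow hn0.le, Real.rpow_neg hx0.le]
        apply inv_anti₀ (by positivity)
        calc x ^ (1 / 8 : ℝ) = (x ^ (1 / 2 : ℝ)) ^ (1 / 4 : ℝ) := by
              rw [← Real.rpow_mul hx0.le]; norm_num
          _ ≤ (n : ℝ) ^ (1 / 4 : ℝ) :=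
              Real.rpow_le_rpow (by positivity) hnx.le (by norm_num)
      calc Λ n * (g (Real.log n / Real.log x) / n)
          ≤ Λ n * (M * ((n:ℝ)⁻¹ ^ (3 / 4 : ℝ) * (n:ℝ)⁻¹ ^ (1 / 4 : ℝ))) :=
            mul_le_mul_of_nonneg_left h2 hL
        _ ≤ Λ n * (M * ((n:ℝ)⁻¹ ^ (3 / 4 : ℝ) * x ^ (-(1 / 8) : ℝ))) := by
            apply mul_le_mul_of_nonneg_left _ hL
            apply mul_le_mul_of_nonneg_left _ hM.le
            exact mul_le_mul_of_nonneg_left h3 (by positivity)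
        _ = _ := by ring
  refine h1.trans ?_
  rw [← Finset.mul_sum]
  have h4 : ∑ n ∈ T, F0 n ≤ ∑' n, F0 n :=
    summable_F0.sum_le_tsum _ (fun n _ => F0_nonneg n)
  calc (M * x ^ (-(1 / 8) : ℝ)) * ∑ n ∈ T, F0 n
      ≤ (M * x ^ (-(1 / 8) : ℝ)) * (∑' n, F0 n + 1) :=
        mul_le_mul_of_nonneg_left (by linarith) (by positivity)
    _ = _ := by ring

/-! ### the integral of the weight -/

theorem IsWt_integral_pos {g : ℝ → ℝ} (hg : IsWt g) (hne : ∃ y, g y ≠ 0) : 0 < ∫ v, g v := by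
  obtain ⟨y, hy⟩ := hne
  have hcs : HasCompactSupport g := by
    apply HasCompactSupport.of_support_subset_isCompact (isCompact_Icc (a := (1/2 : ℝ)) (b := 1))
    intro z hz
    have := hg.supp (subset_tsupport g hz)
    exact ⟨this.1.le, this.2.le⟩
  exact hg.smooth.continuous.integral_pos_of_hasCompactSupport_nonneg_nonzero hcs
    hg.nonneg hy

/-! ### values at primes -/

theorem IsSys.L_prime {n : ℕ} {r L : ArithmeticFunction ℝ} {κ : ℝ} (h : IsSys n r L κ) {p : ℕ}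
    (hp : p.Prime) : L p = r p * Real.log p := by
  have h1 := h.conv_sum p
  rw [Nat.sum_divisorsAntidiagonal (fun a b => r a * L b), Nat.Prime.sum_divisors hp,
    Nat.div_one, Nat.div_self hp.pos, h.one, h.L_one] at h1
  linarith

/-- the data used for one of the fields -/
structure Dat (g : ℝ → ℝ) (cf : ℕ → ℕ) (Dn B : ℕ) (L : ℕ → ℝ) (C X0 : ℝ) (p0 : ℕ) : Prop where
  C_pos : 0 < C
  X0_ge : 3 ≤ X0
  nonneg : ∀ m, 0 ≤ L m
  le : ∀ m, L m ≤ Dn * Λ m
  prime : ∀ p : ℕ, p.Prime → p0 ≤ p → L p = rc Dn B p * Real.log p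
  bv : ∀ x : ℝ, X0 ≤ x → ∑ d ∈ Icc 1 ⌊x ^ (1 / (40 * Dn ^ 2) : ℝ)⌋₊,
        |∑ m ∈ (Icc 1 ⌊x⌋₊).filter (fun m => m ≡ cf d [MOD d]), L m * wt g x m -
          (1 / (d.totient : ℝ)) * ∑ m ∈ Icc 1 ⌊x⌋₊, L m * wt g x m| ≤ C / Real.log x ^ (3:ℝ)
  mass : ∀ x : ℝ, X0 ≤ x → |∑ m ∈ Icc 1 ⌊x⌋₊, L m * wt g x m - Real.log x * ∫ v, g v| ≤ C

theorem exists_dat (h2 : FieldSys) (h3 : BVavF) (h4 : MassF) {g : ℝ → ℝ} (hg : IsWt g)
    {cf : ℕ → ℕ} (hcf : ∀ d, Nat.Coprime (cf d) d) {Dn B : ℕ} (hD : Odd Dn) (hB : 1 ≤ B)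
    (hNP : NP Dn B) : ∃ (L : ℕ → ℝ) (C X0 : ℝ) (p0 : ℕ), Dat g cf Dn B L C X0 p0 := by
  obtain ⟨r, L, κ, hsys, p0, hp0⟩ := h2 Dn B hD hB hNP
  obtain ⟨C1, X1, hC1, hX1, hbv⟩ := h3 Dn r L κ hsys g hg 3 (by norm_num)
  obtain ⟨C2, X2, hC2, hX2, hmass⟩ := h4 Dn r L κ hsys g hg
  refine ⟨fun m => L m, max C1 C2, max X1 X2, p0, ?_⟩
  constructor
  · exact lt_max_of_lt_left hC1
  · exact hX1.trans (le_max_left _ _)
  · exact hsys.L_nonneg
  · exact hsys.L_le
  · intro p hp hpp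
    rw [← hp0 p hp hpp]
    exact IsSys.L_prime hsys hp
  · intro x hx
    have hx1 : X1 ≤ x := (le_max_left _ _).trans hx
    refine (hbv x hx1 cf hcf).trans ?_
    have hlog : 0 ≤ Real.log x := Real.log_nonneg (by linarith)
    exact div_le_div_of_nonneg_right (le_max_left _ _) (Real.rpow_nonneg hlog _)
  · intro x hx
    exact (hmass x ((le_max_right _ _).trans hx)).trans (le_max_right _ _)

theorem specialK (h1 : Indic) (h2 : FieldSys) (h3 : BVavF) (h4 : MassF) (h5 : SieveW) :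
    SpecialK := by
  obtain ⟨K, cs, hK, hcs, hsieve⟩ := h5
  have hK0 : 0 < K := by linarith
  refine ⟨1 / (80 * K), by positivity, ?_, ?_⟩
  · rw [div_le_div_iff₀ (by positivity) (by norm_num)]; linarith
  intro Ls R y hLs hR hy v u hv huv h2v hRv hLv hru g hg hgne
  obtain ⟨ι, c, D, B, hcpos, hDB, hind⟩ := h1 Ls R y hLs hR hy
  obtain ⟨cf, hcf1, hcf2⟩ := exists_class huv
  have hdat : ∀ i, i ∈ ι → ∃ (L : ℕ → ℝ) (C X0 : ℝ) (p0 : ℕ),
      Dat g cf (D i) (B i) L C X0 p0 := fun i hi =>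
    exists_dat h2 h3 h4 hg hcf1 (hDB i hi).1 (hDB i hi).2.2.1 (hDB i hi).2.2.2
  choose! L C X0 p0 hd using hdat
  obtain ⟨CN, hCN, hnp⟩ := nonprime_pow hg
  have hI0 := IsWt_integral_pos hg hgne
  set I0 : ℝ := ∫ v, g v with hI0def
  set D0 : ℕ := ∏ l ∈ Ls, l with hD0
  have hD0pos : 0 < D0 := Finset.prod_pos fun l hl => (hLs l hl).1.pos
  have hD0' : (1:ℝ) ≤ D0 := by exact_mod_cast hD0pos
  have hD0'' : (0:ℝ) < D0 := by linarith
  set α : ℝ := 1 / (80 * K) / (D0 : ℝ) ^ 2 with hα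
  have hα0 : 0 < α := by rw [hα]; positivity
  set β : ℝ := 1 / (80 * (D0 : ℝ) ^ 2) with hβ
  have hβ0 : 0 < β := by rw [hβ]; positivity
  have hαK : α * K = β := by
    rw [hα, hβ]
    field_simp
  have hβ80 : β ≤ 1 / 80 := by
    rw [hβ]
    apply div_le_div_of_nonneg_left (by norm_num) (by norm_num)
    nlinarith
  have hφ : 0 < v.totient := Nat.totient_pos.2 hv
  have hφ' : (0:ℝ) < v.totient := by exact_mod_cast hφ
  set cS : ℝ := ∑ i ∈ ι, c i with hcS
  set A1 : ℝ := ∑ i ∈ ι, |c i| * C i with hA1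
  set A2 : ℝ := ∑ i ∈ ι, |c i| * ((D i : ℝ) * CN) with hA2
  have hA1nn : 0 ≤ A1 := Finset.sum_nonneg fun i hi =>
    mul_nonneg (abs_nonneg _) (hd i hi).C_pos.le
  have hA2nn : 0 ≤ A2 := Finset.sum_nonneg fun i hi =>
    mul_nonneg (abs_nonneg _) (mul_nonneg (Nat.cast_nonneg _) hCN.le)
  set CR : ℝ := A1 + A2 with hCR
  have hCRnn : 0 ≤ CR := by rw [hCR]; linarith
  set c1 : ℝ := cs * (1 / (v.totient : ℝ) * (cS * I0 / 2)) / α with hc1
  have hc1pos : 0 < c1 := by rw [hc1]; positivity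
  -- large `x`
  have ev1 : ∀ᶠ x : ℝ in atTop, (2:ℝ) ≤ x ^ α := (tendsto_rpow_atTop hα0).eventually_ge_atTop _
  have ev2 : ∀ᶠ x : ℝ in atTop, (v:ℝ) ≤ x ^ β := (tendsto_rpow_atTop hβ0).eventually_ge_atTop _
  have ev3 : ∀ᶠ x : ℝ in atTop, Real.log x ^ (3:ℝ) ≤ x ^ (9 / 80 : ℝ) := by
    have h := (isLittleO_log_rpow_rpow_atTop (3:ℝ) (by norm_num : (0:ℝ) < 9 / 80)).bound one_pos
    filter_upwards [h, eventually_ge_atTop (3:ℝ)] with x hx hx3
    have hlog : 0 ≤ Real.log x := Real.log_nonneg (by linarith)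
    rw [one_mul, Real.norm_of_nonneg (Real.rpow_nonneg hlog _),
      Real.norm_of_nonneg (Real.rpow_nonneg (by linarith) _)] at hx
    exact hx
  have ev4 : ∀ᶠ x : ℝ in atTop, 2 * A1 / (cS * I0) ≤ Real.log x :=
    Real.tendsto_log_atTop.eventually_ge_atTop _
  have ev5 : ∀ᶠ x : ℝ in atTop, 4 * (K * α * CR) / c1 + 1 ≤ Real.log x :=
    Real.tendsto_log_atTop.eventually_ge_atTop _
  have ev6 : ∀ᶠ x : ℝ in atTop, ∀ i ∈ ι, X0 i ≤ x :=
    (Filter.eventually_all_finset ι).2 fun i _ => eventually_ge_atTop _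
  have ev7 : ∀ᶠ x : ℝ in atTop, ∀ i ∈ ι, (p0 i : ℝ) ≤ x ^ (1 / 2 : ℝ) :=
    (Filter.eventually_all_finset ι).2 fun i _ =>
      (tendsto_rpow_atTop (by norm_num)).eventually_ge_atTop _
  obtain ⟨X4, hX4⟩ := (ev1.and (ev2.and (ev3.and (ev4.and (ev5.and (ev6.and
    ev7)))))).exists_forall_of_atTop
  refine ⟨c1 / 2, max 3 X4, by linarith, le_max_left _ _, ?_⟩
  intro x hx E hE
  have hx3 : (3:ℝ) ≤ x := (le_max_left _ _).trans hx
  obtain ⟨hw2, hvx, hlog3, hlogA, hlogx, hX0, hp0⟩ := hX4 x ((le_max_right _ _).trans hx)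
  have hxpos : 0 < x := by linarith
  have hx1' : 1 < x := by linarith
  have hlog : 0 < Real.log x := Real.log_pos hx1'
  have hlog1 : 1 ≤ Real.log x := by
    have : 0 ≤ 4 * (K * α * CR) / c1 := by positivity
    linarith
  have hlog3pos : 0 < Real.log x ^ (3:ℝ) := Real.rpow_pos_of_pos hlog _
  set w : ℝ := x ^ α with hw
  have hwpos : 0 < w := by linarith
  have hwK : w ^ K = x ^ β := by
    rw [hw, ← Real.rpow_mul hxpos.le, hαK]
  have hlogw : Real.log w = α * Real.log x := Real.log_rpow hxpos _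
  set P : ℕ → Prop := fun q => q.Prime ∧ 3 ≤ q ∧ ¬ q ∣ v with hP
  set Ω : Finset ℕ := (Icc 1 ⌊x⌋₊).filter (fun n => n.Prime ∧ n ≡ u [MOD v]) with hΩ
  set W : ℕ → ℝ := fun p => (if Pat Ls R y p then 1 else 0) * (Real.log p * wt g x p) with hW
  have hWnn : ∀ p : ℕ, p.Prime → 0 ≤ W p := by
    intro p hp
    simp only [hW]
    apply mul_nonneg
    · split_ifs <;> norm_num
    · exact mul_nonneg (Real.log_nonneg (by exact_mod_cast hp.one_le)) (wt_nonneg hg x p)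
  have hWeq : ∀ p ∈ Ω, W p = ∑ i ∈ ι, c i * (L i p * wt g x p) := by
    intro p hp
    obtain ⟨hp1, hpp, hpu⟩ := Finset.mem_filter.1 hp
    by_cases hpx : (p:ℝ) ≤ x ^ (1 / 2 : ℝ)
    · have h0 := wt_zero hg hx1' hpx
      simp only [hW]
      rw [h0]
      simp
    · push Not at hpx
      have hL : ∀ i ∈ ι, L i p = rc (D i) (B i) p * Real.log p := fun i hi =>
        (hd i hi).prime p hpp (by exact_mod_cast ((hp0 i hi).trans hpx.le))
      have hpv : ¬ p ∣ v := by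
        intro hpv
        have h5 : p ∣ u := by
          have h6 : u ≡ p [MOD p] := (hpu.of_dvd hpv).symm
          have h7 : u ≡ 0 [MOD p] := h6.trans (by simp [Nat.ModEq])
          exact (Nat.modEq_zero_iff_dvd).1 h7
        have h8 : p ∣ Nat.gcd u v := Nat.dvd_gcd h5 hpv
        rw [huv.gcd_eq_one] at h8
        exact hpp.one_lt.ne' (Nat.dvd_one.1 h8)
      have h := hind p hpp (fun l hl => ?_) (fun r hr => ?_)
      · simp only [hW]
        rw [← h, Finset.sum_mul]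
        apply Finset.sum_congr rfl
        intro i hi
        rw [hL i hi]
        ring
      · have h5 : p ≡ u [MOD l] := hpu.of_dvd (hLv l hl).1
        rw [← (hLv l hl).2]
        exact h5
      · intro hpr
        exact hpv (hpr.trans (hRv r hr))
  -- total masses
  set M : ℕ → ℝ := fun i => ∑ n ∈ Icc 1 ⌊x⌋₊, L i n * wt g x n with hM
  have hMsum : cS * I0 / 2 * Real.log x ≤ ∑ i ∈ ι, c i * M i := by
    have h5 : ∀ i ∈ ι, c i * (Real.log x * I0) - |c i| * C i ≤ c i * M i := by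
      intro i hi
      have h6 := (hd i hi).mass x (hX0 i hi)
      have h7 : |c i * (M i - Real.log x * I0)| ≤ |c i| * C i := by
        rw [abs_mul]
        exact mul_le_mul_of_nonneg_left h6 (abs_nonneg _)
      have h8 := (abs_le.1 h7).1
      linarith
    have h6 := Finset.sum_le_sum h5
    rw [Finset.sum_sub_distrib, ← Finset.sum_mul] at h6
    have h7 : A1 ≤ cS * I0 / 2 * Real.log x := by
      rw [div_le_iff₀ (by positivity)] at hlogA
      linarith
    calc cS * I0 / 2 * Real.log x ≤ cS * (Real.log x * I0) - A1 := by linarith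
      _ ≤ _ := h6
  have hMsum0 : 0 ≤ ∑ i ∈ ι, c i * M i := le_trans (by positivity) hMsum
  set Er : ℕ → ℕ → ℝ := fun i m => |∑ n ∈ (Icc 1 ⌊x⌋₊).filter (fun n => n ≡ cf m [MOD m]),
    L i n * wt g x n - (1 / (m.totient : ℝ)) * M i| with hEr
  have hErnn : ∀ i m, 0 ≤ Er i m := fun i m => abs_nonneg _
  set r : ℕ → ℝ := fun d => ∑ i ∈ ι, |c i| *
    ((if v * d ≤ ⌊x ^ (1 / (40 * (D i) ^ 2) : ℝ)⌋₊ then Er i (v * d) else 0) +
      (D i : ℝ) * (CN * x ^ (-(1 / 8) : ℝ))) with hr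
  have hR : ∑ d ∈ Icc 1 ⌊w ^ K⌋₊, r d ≤ CR / Real.log x ^ (3:ℝ) := by
    simp only [hr]
    rw [Finset.sum_comm]
    have h5 : ∀ i ∈ ι, ∑ d ∈ Icc 1 ⌊w ^ K⌋₊, |c i| *
        ((if v * d ≤ ⌊x ^ (1 / (40 * (D i) ^ 2) : ℝ)⌋₊ then Er i (v * d) else 0) +
          (D i : ℝ) * (CN * x ^ (-(1 / 8) : ℝ))) ≤
        (|c i| * C i + |c i| * ((D i : ℝ) * CN)) / Real.log x ^ (3:ℝ) := by
      intro i hi
      rw [← Finset.mul_sum, Finset.sum_add_distrib, Finset.sum_const, Nat.card_Icc,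
        Nat.add_sub_cancel, nsmul_eq_mul]
      have h6 : ∑ d ∈ Icc 1 ⌊w ^ K⌋₊,
          (if v * d ≤ ⌊x ^ (1 / (40 * (D i) ^ 2) : ℝ)⌋₊ then Er i (v * d) else 0) ≤
          C i / Real.log x ^ (3:ℝ) := by
        refine le_trans ?_ ((hd i hi).bv x (hX0 i hi))
        rw [← Finset.sum_filter]
        have h7 : ∑ d ∈ (Icc 1 ⌊w ^ K⌋₊).filter
            (fun d => v * d ≤ ⌊x ^ (1 / (40 * (D i) ^ 2) : ℝ)⌋₊), Er i (v * d) =
            ∑ m ∈ ((Icc 1 ⌊w ^ K⌋₊).filter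
              (fun d => v * d ≤ ⌊x ^ (1 / (40 * (D i) ^ 2) : ℝ)⌋₊)).image
                (fun d => v * d), Er i m := by
          rw [Finset.sum_image]
          intro a _ b _ hab
          exact Nat.eq_of_mul_eq_mul_left hv hab
        rw [h7]
        apply Finset.sum_le_sum_of_subset_of_nonneg
        · intro m hm
          obtain ⟨d, hd, rfl⟩ := Finset.mem_image.1 hm
          obtain ⟨hd1, hd2⟩ := Finset.mem_filter.1 hd
          rw [Finset.mem_Icc] at hd1 ⊢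
          exact ⟨Nat.mul_pos hv hd1.1, hd2⟩
        · intro m _ _
          exact hErnn i m
      have h8 : (⌊w ^ K⌋₊ : ℝ) * ((D i : ℝ) * (CN * x ^ (-(1 / 8) : ℝ))) ≤
          (D i : ℝ) * CN / Real.log x ^ (3:ℝ) := by
        have h9 : (⌊w ^ K⌋₊ : ℝ) ≤ x ^ (1 / 80 : ℝ) := by
          rw [hwK]
          refine (Nat.floor_le (Real.rpow_nonneg hxpos.le _)).trans ?_
          exact Real.rpow_le_rpow_of_exponent_le hx1'.le hβ80
        have h10 : x ^ (1 / 80 : ℝ) * x ^ (-(1 / 8) : ℝ) ≤ 1 / Real.log x ^ (3:ℝ) := by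
          rw [← Real.rpow_add hxpos, show (1 / 80 + -(1 / 8) : ℝ) = -(9 / 80) by norm_num,
            Real.rpow_neg hxpos.le, ← one_div]
          exact one_div_le_one_div_of_le hlog3pos hlog3
        calc (⌊w ^ K⌋₊ : ℝ) * ((D i : ℝ) * (CN * x ^ (-(1 / 8) : ℝ)))
            ≤ x ^ (1 / 80 : ℝ) * ((D i : ℝ) * (CN * x ^ (-(1 / 8) : ℝ))) :=
              mul_le_mul_of_nonneg_right h9 (by positivity)
          _ = (D i : ℝ) * CN * (x ^ (1 / 80 : ℝ) * x ^ (-(1 / 8) : ℝ)) := by ring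
          _ ≤ (D i : ℝ) * CN * (1 / Real.log x ^ (3:ℝ)) :=
              mul_le_mul_of_nonneg_left h10 (by positivity)
          _ = _ := by ring
      calc _ ≤ |c i| * (C i / Real.log x ^ (3:ℝ) + (D i : ℝ) * CN / Real.log x ^ (3:ℝ)) :=
            mul_le_mul_of_nonneg_left (add_le_add h6 h8) (abs_nonneg _)
        _ = _ := by ring
    refine (Finset.sum_le_sum h5).trans ?_
    rw [← Finset.sum_div, Finset.sum_add_distrib]
  have hrnn : ∀ d, 0 ≤ r d := by
    intro d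
    simp only [hr]
    apply Finset.sum_nonneg
    intro i hi
    apply mul_nonneg (abs_nonneg _)
    apply add_nonneg
    · split_ifs
      · exact hErnn _ _
      · exact le_rfl
    · positivity
  have hsv := hsieve ℕ P (fun q hq => ⟨hq.1, hq.2.1⟩) w hw2 Ω W
    (fun q n => n ≡ 1 [MOD q]) ((1 / (v.totient : ℝ)) * ∑ i ∈ ι, c i * M i)
    (CR / Real.log x ^ (3:ℝ)) r
    (fun n hn => hWnn n (Finset.mem_filter.1 hn).2.1)
    (by positivity) hrnn ?_ hR (Ω.filter (fun n => ∀ q : ℕ, P q → (q : ℝ) ≤ w → ¬ n ≡ 1 [MOD q]))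
    (fun n => Finset.mem_filter)
  swap
  · -- the error terms
    intro I hI hIw E2 hE2
    have hIp : ∀ q ∈ I, q.Prime := fun q hq => (hI q hq).1.1
    set d : ℕ := ∏ q ∈ I, q with hdd
    have hdpos : 0 < d := Finset.prod_pos fun q hq => (hIp q hq).pos
    have hvd : v.Coprime d := by
      apply Nat.Coprime.prod_right
      intro q hq
      rw [Nat.coprime_comm, Nat.Prime.coprime_iff_not_dvd (hIp q hq)]
      exact (hI q hq).1.2.2
    have hvdle : ∀ i ∈ ι, v * d ≤ ⌊x ^ (1 / (40 * (D i) ^ 2) : ℝ)⌋₊ := by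
      intro i hi
      rw [Nat.le_floor_iff (Real.rpow_nonneg hxpos.le _)]
      push_cast
      have hDi : D i ≤ D0 := Nat.le_of_dvd hD0pos (hDB i hi).2.1
      have hDi0 : 0 < D i := (hDB i hi).1.pos
      have hDi0' : (0:ℝ) < D i := by exact_mod_cast hDi0
      have hDi' : (D i : ℝ) ≤ D0 := by exact_mod_cast hDi
      calc (v : ℝ) * d ≤ x ^ β * x ^ β :=
            mul_le_mul hvx (hIw.trans hwK.le) (Nat.cast_nonneg _) (Real.rpow_nonneg hxpos.le _)
        _ = x ^ (β + β) := by rw [← Real.rpow_add hxpos]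
        _ ≤ x ^ (1 / (40 * (D i : ℝ) ^ 2) : ℝ) := by
            apply Real.rpow_le_rpow_of_exponent_le hx1'.le
            have h5 : β + β = 1 / (40 * (D0 : ℝ) ^ 2) := by
              rw [hβ]; field_simp; norm_num
            rw [h5]
            apply div_le_div_of_nonneg_left (by norm_num) (by positivity)
            have : (D i : ℝ) ^ 2 ≤ (D0 : ℝ) ^ 2 := pow_le_pow_left₀ hDi0'.le hDi' 2
            linarith
    set F : Finset ℕ := (Icc 1 ⌊x⌋₊).filter (fun n => n ≡ cf (v * d) [MOD v * d]) with hF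
    have hE2' : E2 = F.filter (fun n => n.Prime) := by
      ext n
      rw [hE2, hF, Finset.mem_filter, Finset.mem_filter, Finset.mem_filter, hcf2 d hvd n, hdd,
        modEq_one_prod I hIp]
      tauto
    have hE2Ω : ∀ n ∈ E2, n ∈ Ω := fun n hn => ((hE2 n).1 hn).1
    have hsum1 : ∑ n ∈ E2, W n = ∑ i ∈ ι, c i * ∑ n ∈ E2, L i n * wt g x n := by
      rw [Finset.sum_congr rfl (fun n hn => hWeq n (hE2Ω n hn)), Finset.sum_comm]
      apply Finset.sum_congr rfl
      intro i _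
      rw [Finset.mul_sum]
    set N : ℕ → ℝ := fun i => ∑ n ∈ F.filter (fun n => ¬ n.Prime), L i n * wt g x n with hN
    have hN1 : ∀ i, ∑ n ∈ E2, L i n * wt g x n = ∑ n ∈ F, L i n * wt g x n - N i := by
      intro i
      rw [hE2', hN, ← Finset.sum_filter_add_sum_filter_not F (fun n => n.Prime)]
      ring
    have hN2 : ∀ i ∈ ι, |N i| ≤ (D i : ℝ) * (CN * x ^ (-(1 / 8) : ℝ)) := by
      intro i hi
      have h5 : 0 ≤ N i := Finset.sum_nonneg fun n _ =>
        mul_nonneg ((hd i hi).nonneg n) (wt_nonneg hg x n)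
      rw [abs_of_nonneg h5]
      calc N i ≤ ∑ n ∈ F.filter (fun n => ¬ n.Prime), (D i : ℝ) * (Λ n * wt g x n) := by
            apply Finset.sum_le_sum
            intro n _
            rw [← mul_assoc]
            exact mul_le_mul_of_nonneg_right ((hd i hi).le n) (wt_nonneg hg x n)
        _ = (D i : ℝ) * ∑ n ∈ F.filter (fun n => ¬ n.Prime), Λ n * wt g x n := by
            rw [Finset.mul_sum]
        _ ≤ _ := mul_le_mul_of_nonneg_left
            (hnp x hx1' _ (fun n hn => (Finset.mem_filter.1 hn).2)) (Nat.cast_nonneg _)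
    have hφvd : (1 / (v.totient : ℝ)) * (∑ i ∈ ι, c i * M i) * ∏ q ∈ I, (1 / ((q : ℝ) - 1)) =
        ∑ i ∈ ι, c i * ((1 / ((v * d).totient : ℝ)) * M i) := by
      have h5 : (1 / (v.totient : ℝ)) * ∏ q ∈ I, (1 / ((q : ℝ) - 1)) =
          1 / ((v * d).totient : ℝ) := by
        rw [Nat.totient_mul hvd, hdd, totient_prod_primes I hIp]
        push_cast
        have h6 : ∏ q ∈ I, (1 / ((q : ℝ) - 1)) = 1 / ∏ q ∈ I, ((q - 1 : ℕ) : ℝ) := by
          rw [Finset.prod_div_distrib, Finset.prod_const_one]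
          congr 1
          apply Finset.prod_congr rfl
          intro q hq
          rw [Nat.cast_sub (hIp q hq).one_le, Nat.cast_one]
        rw [h6]
        field_simp
      calc (1 / (v.totient : ℝ)) * (∑ i ∈ ι, c i * M i) * ∏ q ∈ I, (1 / ((q : ℝ) - 1))
          = ((1 / (v.totient : ℝ)) * ∏ q ∈ I, (1 / ((q : ℝ) - 1))) * ∑ i ∈ ι, c i * M i := by ring
        _ = (1 / ((v * d).totient : ℝ)) * ∑ i ∈ ι, c i * M i := by rw [h5]
        _ = _ := by
            rw [Finset.mul_sum]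
            apply Finset.sum_congr rfl
            intro i _
            ring
    rw [hφvd, hsum1, ← Finset.sum_sub_distrib]
    refine (Finset.abs_sum_le_sum_abs _ _).trans ?_
    simp only [hr]
    apply Finset.sum_le_sum
    intro i hi
    rw [if_pos (hvdle i hi), ← mul_sub, abs_mul]
    apply mul_le_mul_of_nonneg_left _ (abs_nonneg _)
    rw [hN1 i]
    calc |∑ n ∈ F, L i n * wt g x n - N i - 1 / ((v * d).totient : ℝ) * M i|
        = |(∑ n ∈ F, L i n * wt g x n - 1 / ((v * d).totient : ℝ) * M i) - N i| := by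
          congr 1; ring
      _ ≤ |∑ n ∈ F, L i n * wt g x n - 1 / ((v * d).totient : ℝ) * M i| + |N i| := abs_sub _ _
      _ ≤ _ := add_le_add le_rfl (hN2 i hi)
  -- main term
  set E2 : Finset ℕ := Ω.filter (fun n => ∀ q : ℕ, P q → (q : ℝ) ≤ w → ¬ n ≡ 1 [MOD q]) with hE2
  have hmain : c1 - K * α * CR / Real.log x ≤ ∑ n ∈ E2, W n := by
    refine le_trans ?_ hsv
    have h7 : c1 ≤ cs * (1 / (v.totient : ℝ) * ∑ i ∈ ι, c i * M i) / Real.log w := by
      rw [hlogw, le_div_iff₀ (by positivity), hc1]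
      have h9 : cs * (1 / (v.totient : ℝ) * (cS * I0 / 2)) / α * (α * Real.log x) =
          cs * (1 / (v.totient : ℝ) * (cS * I0 / 2 * Real.log x)) := by
        field_simp
      rw [h9]
      exact mul_le_mul_of_nonneg_left (mul_le_mul_of_nonneg_left hMsum (by positivity)) hcs.le
    have h10 : K * Real.log w * (CR / Real.log x ^ (3:ℝ)) ≤ K * α * CR / Real.log x := by
      rw [hlogw]
      have h11 : Real.log x ^ (3:ℝ) = Real.log x * (Real.log x * Real.log x) := by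
        have : (3:ℝ) = ((3:ℕ):ℝ) := by norm_num
        rw [this, Real.rpow_natCast]; ring
      rw [h11]
      have h12 : K * (α * Real.log x) * (CR / (Real.log x * (Real.log x * Real.log x))) =
          K * α * CR / (Real.log x * Real.log x) := by
        field_simp
      rw [h12]
      exact div_le_div_of_nonneg_left (by positivity) hlog
        (le_mul_of_one_le_right hlog.le hlog1)
    linarith
  have herr : K * α * CR / Real.log x ≤ c1 / 4 := by
    rw [div_le_iff₀ hlog]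
    have h13 : 4 * (K * α * CR) / c1 ≤ Real.log x := by linarith
    rw [div_le_iff₀ hc1pos] at h13
    linarith
  -- comparison with the primes
  have hcomp : ∑ n ∈ E2, W n ≤ ∑ p ∈ E, Real.log p * wt g x p := by
    have h14 : ∑ n ∈ E2, W n = ∑ n ∈ E2.filter (fun n => Pat Ls R y n), Real.log n * wt g x n := by
      rw [Finset.sum_filter (s := E2)]
      apply Finset.sum_congr rfl
      intro n _
      simp only [hW]
      split_ifs
      · rw [one_mul]
      · rw [zero_mul]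
    rw [h14]
    apply Finset.sum_le_sum_of_subset_of_nonneg
    · intro p hp
      obtain ⟨hpE2, hpat⟩ := Finset.mem_filter.1 hp
      obtain ⟨hpΩ, hps⟩ := Finset.mem_filter.1 hpE2
      obtain ⟨hpI, hpp, hpu⟩ := Finset.mem_filter.1 hpΩ
      rw [hE]
      refine ⟨hpp, ?_, hpu, hpat, ?_⟩
      · rw [← Nat.le_floor_iff hxpos.le]
        exact (Finset.mem_Icc.1 hpI).2
      · intro r hrp hrd
        by_cases hr2 : r = 2
        · exact Or.inl hr2
        right
        by_cases hrL : r ∈ Ls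
        · exact Or.inl hrL
        right
        by_contra hle
        have hpr : p ≡ 1 [MOD r] :=
          ((Nat.modEq_iff_dvd' hpp.one_le).2 hrd).symm
        by_cases hrv : r ∣ v
        · apply hru r hrp hr2 hrv hrL
          have h15 : u ≡ 1 [MOD r] := (hpu.of_dvd hrv).symm.trans hpr
          have h16 := hrp.one_lt
          rw [Nat.ModEq, Nat.mod_eq_of_lt h16] at h15
          exact h15
        · have hr3 : 3 ≤ r := by
            have := hrp.two_le
            omega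
          exact hps r ⟨hrp, hr3, hrv⟩ (not_lt.1 hle) hpr
    · intro p hp _
      have hpp := ((hE p).1 hp).1
      exact mul_nonneg (Real.log_nonneg (by exact_mod_cast hpp.one_le)) (wt_nonneg hg x p)
  linarith

end Pool.Agent.Helper54.NF
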